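import Mathlib
import Pool.Agent.Helper92.CY.Defs

/-!
# Change of coordinates (CY-8)
-/

namespace Pool.Agent.Helper28.CY

open MvPolynomial Pool.Agent.Helper37.RP Pool.Agent.Helper76.CY Pool.Agent.Helper92.CY

open scoped Matrix

section alg

variable {S : Type*} [CommRing S]

theorem bil_N4 (p q u v : Fin 4 → S) :
    bil (N4 p q) u v = Matrix.det (Matrix.of ![p, q, u, v]) := by
  simp [bil, N4, plk, Matrix.det_succ_row_zero, Fin.sum_univ_succ,
    Fin.succAbove]
  ring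

theorem mul_N4_mul (H : Matrix (Fin 4) (Fin 4) S) (a b : Fin 4 → S) :
    H * N4 (a ᵥ* H) (b ᵥ* H) * Hᵀ = H.det • N4 a b := by
  ext i j
  have e1 : (H * N4 (a ᵥ* H) (b ᵥ* H) * Hᵀ) i j = bil (N4 (a ᵥ* H) (b ᵥ* H)) (H i) (H j) := by
    simp only [Matrix.mul_apply, bil, Matrix.transpose_apply, Finset.sum_mul]
    rw [Finset.sum_comm]
  have e2 : (N4 a b) i j = bil (N4 a b) (Pi.single i 1) (Pi.single j 1) := by
    simp [bil, Pi.single_apply]
  have e3 : Matrix.of ![a ᵥ* H, b ᵥ* H, H i, H j] =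
      Matrix.of ![a, b, Pi.single i 1, Pi.single j 1] * H := by
    ext r s
    fin_cases r <;> simp [Matrix.mul_apply, Matrix.vecMul, dotProduct, Pi.single_apply]
  rw [Matrix.smul_apply, e1, e2, bil_N4, bil_N4, e3, Matrix.det_mul, smul_eq_mul, mul_comm]

theorem N4_comb (a b : Fin 4 → S) (s t u v : S) :
    N4 (s • a + t • b) (u • a + v • b) = (s * v - t * u) • N4 a b := by
  ext i j
  fin_cases i <;> fin_cases j <;> simp [N4, plk] <;> ring

theorem gram_eq (M N : Matrix (Fin 4) (Fin 4) S) : gram M N = (2 : S) • (Nᵀ * M * N) := by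
  ext i j
  simp only [gram, Matrix.of_apply, Matrix.smul_apply, Matrix.mul_apply, Matrix.transpose_apply,
    smul_eq_mul, Finset.sum_mul]
  rw [Finset.sum_comm]

theorem conj_gram (H M Mc : Matrix (Fin 4) (Fin 4) S) (a b α β : Fin 4 → S) (s t u v : S)
    (hM : Mc = Hᵀ * M * H + Matrix.vecMulVec α (a ᵥ* H) + Matrix.vecMulVec (a ᵥ* H) α +
      Matrix.vecMulVec β (b ᵥ* H) + Matrix.vecMulVec (b ᵥ* H) β) :
    H * gram Mc (N4 (s • (a ᵥ* H) + t • (b ᵥ* H)) (u • (a ᵥ* H) + v • (b ᵥ* H))) * Hᵀ =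
      (H.det ^ 2 * (s * v - t * u) ^ 2) • gram M (N4 a b) := by
  have k1 : (a ᵥ* H) ᵥ* N4 (a ᵥ* H) (b ᵥ* H) = 0 := by
    funext j
    exact dot_N4_left _ _ j
  have k2 : (b ᵥ* H) ᵥ* N4 (a ᵥ* H) (b ᵥ* H) = 0 := by
    funext j
    exact dot_N4_right _ _ j
  set N1 := N4 (a ᵥ* H) (b ᵥ* H) with hN1
  have k1' : N1ᵀ *ᵥ (a ᵥ* H) = 0 := by
    rw [Matrix.mulVec_transpose]
    exact k1
  have k2' : N1ᵀ *ᵥ (b ᵥ* H) = 0 := by
    rw [Matrix.mulVec_transpose]
    exact k2
  have e1 : N1ᵀ * Mc * N1 = N1ᵀ * (Hᵀ * M * H) * N1 := by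
    rw [hM]
    simp only [Matrix.mul_add, Matrix.add_mul, Matrix.mul_vecMulVec, Matrix.vecMulVec_mul, k1', k2',
      k1, k2]
    simp
  have e2 : H * N1ᵀ * Hᵀ = H.det • (N4 a b)ᵀ := by
    have := congrArg Matrix.transpose (mul_N4_mul H a b)
    rw [Matrix.transpose_mul, Matrix.transpose_mul, Matrix.transpose_transpose,
      Matrix.transpose_smul, ← Matrix.mul_assoc] at this
    exact this
  have e3 : H * N1 * Hᵀ = H.det • N4 a b := mul_N4_mul H a b
  rw [N4_comb, gram_eq, gram_eq, ← hN1]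
  simp only [Matrix.transpose_smul, Matrix.smul_mul, Matrix.mul_smul, e1]
  have e4 : H * (N1ᵀ * (Hᵀ * M * H) * N1) * Hᵀ = (H * N1ᵀ * Hᵀ) * M * (H * N1 * Hᵀ) := by
    simp only [Matrix.mul_assoc]
  rw [e4, e2, e3]
  simp only [Matrix.smul_mul, Matrix.mul_smul, smul_smul]
  congr 1
  ring

end alg

section change

variable {R S : Type*} [CommRing R] [CommRing S] [Algebra R S]

theorem vecMul_map (h : Matrix (Fin 4) (Fin 4) R) (a : Fin 4 → S) (i : Fin 4) :
    (a ᵥ* h.map (algebraMap R S)) i = ∑ e, a e * algebraMap R S (h e i) := by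
  simp [Matrix.vecMul, dotProduct]

theorem mulVec_map (h : Matrix (Fin 4) (Fin 4) R) (y : Fin 4 → S) (i : Fin 4) :
    ((h.map (algebraMap R S)).mulVec y) i = ∑ j, algebraMap R S (h i j) * y j := by
  simp [Matrix.mulVec, dotProduct]

/-- A linear form after the change of coordinates. -/
theorem lin_act (L : Matrix (Fin 4) (Fin 4) R) (h1 h2 : Matrix (Fin 4) (Fin 4) R)
    (y : Fin 4 → S) (i : Fin 4) :
    ∑ j, algebraMap R S (∑ a, ∑ b, L a b * h1 a i * h2 b j) * y j =
      ((fun a => aeval ((h2.map (algebraMap R S)).mulVec y) (lin L a)) ᵥ*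
        h1.map (algebraMap R S)) i := by
  rw [vecMul_map]
  simp only [map_sum, map_mul, aeval_lin, mulVec_map, Finset.sum_mul, Finset.mul_sum]
  rw [Finset.sum_comm]
  refine Finset.sum_congr rfl fun a _ => ?_
  rw [Finset.sum_comm]
  refine Finset.sum_congr rfl fun b _ => Finset.sum_congr rfl fun j _ => ?_
  ring

theorem lin_act2 (L L' : Matrix (Fin 4) (Fin 4) R) (h1 h2 : Matrix (Fin 4) (Fin 4) R) (s t : R)
    (y : Fin 4 → S) :
    (fun i => aeval y (lin (fun i j => ∑ a, ∑ b, (s * L a b + t * L' a b) * h1 a i * h2 b j) i)) =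
      algebraMap R S s • ((fun a => aeval ((h2.map (algebraMap R S)).mulVec y) (lin L a)) ᵥ*
        h1.map (algebraMap R S)) +
      algebraMap R S t • ((fun a => aeval ((h2.map (algebraMap R S)).mulVec y) (lin L' a)) ᵥ*
        h1.map (algebraMap R S)) := by
  funext i
  refine (aeval_lin _ y i).trans ?_
  rw [Pi.add_apply, Pi.smul_apply, Pi.smul_apply, ← lin_act, ← lin_act, smul_eq_mul,
    smul_eq_mul, Finset.mul_sum, Finset.mul_sum, ← Finset.sum_add_distrib]
  refine Finset.sum_congr rfl fun j _ => ?_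
  rw [← mul_assoc, ← mul_assoc, ← map_mul, ← map_mul, ← add_mul, ← map_add]
  congr 2
  simp only [Finset.mul_sum, ← Finset.sum_add_distrib]
  refine Finset.sum_congr rfl fun a _ => Finset.sum_congr rfl fun b _ => ?_
  ring

/-- The value of the tensor `c` at `y`. -/
noncomputable def ten (c : Ix → R) (y : Fin 4 → S) (i j : Fin 4) : S :=
  ∑ k, ∑ l, algebraMap R S (c (.inr (.inr (i, j, k, l)))) * (y k * y l)

theorem quad_ten (c : Ix → R) (y : Fin 4 → S) (i j : Fin 4) :
    aeval y (quad (pQ c) i j) = 2 * (ten c y i j + ten c y j i) := by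
  have sw : ∀ i j, ∑ k, ∑ l, algebraMap R S (c (.inr (.inr (i, j, l, k)))) * (y k * y l) =
      ten c y i j := by
    intro i j
    rw [Finset.sum_comm, ten]
    refine Finset.sum_congr rfl fun k _ => Finset.sum_congr rfl fun l _ => ?_
    ring
  rw [aeval_quad]
  simp only [pQ, map_add, add_mul, Finset.sum_add_distrib]
  rw [sw, sw]
  simp only [ten]
  ring

theorem ten_act (d : Ix → R) (h1 h2 : Matrix (Fin 4) (Fin 4) R) (τ : Matrix (Fin 2) (Fin 2) R)
    (A B : Matrix (Fin 4) (Fin 4) R) (y : Fin 4 → S) (i j : Fin 4) :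
    ten (act d h1 h2 τ A B) y i j =
      ((h1.map (algebraMap R S))ᵀ * Matrix.of (ten d ((h2.map (algebraMap R S)).mulVec y)) *
        h1.map (algebraMap R S)) i j +
      ((A.map (algebraMap R S)).mulVec y) i *
        ((fun a => aeval ((h2.map (algebraMap R S)).mulVec y) (lin (pL d) a)) ᵥ*
          h1.map (algebraMap R S)) j +
      ((B.map (algebraMap R S)).mulVec y) i *
        ((fun a => aeval ((h2.map (algebraMap R S)).mulVec y) (lin (pL' d) a)) ᵥ*
          h1.map (algebraMap R S)) j := by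
  have e1 : ∀ (L A : Matrix (Fin 4) (Fin 4) R),
      ∑ k, ∑ l, algebraMap R S (A i k * ∑ a, ∑ b, L a b * h1 a j * h2 b l) * (y k * y l) =
      ((A.map (algebraMap R S)).mulVec y) i *
        ((fun a => aeval ((h2.map (algebraMap R S)).mulVec y) (lin L a)) ᵥ*
          h1.map (algebraMap R S)) j := by
    intro L A
    rw [← lin_act, mulVec_map, Finset.sum_mul_sum]
    refine Finset.sum_congr rfl fun k _ => Finset.sum_congr rfl fun l _ => ?_
    rw [map_mul]
    ring
  have e2 : ∑ k, ∑ l, algebraMap R S (∑ a, ∑ b, ∑ e, ∑ f,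
        d (.inr (.inr (a, b, e, f))) * h1 a i * h1 b j * h2 e k * h2 f l) * (y k * y l) =
      ((h1.map (algebraMap R S))ᵀ * Matrix.of (ten d ((h2.map (algebraMap R S)).mulVec y)) *
        h1.map (algebraMap R S)) i j := by
    have f1 : ∀ a b e f, ∑ k, ∑ l, algebraMap R S
        (d (.inr (.inr (a, b, e, f))) * h1 a i * h1 b j * h2 e k * h2 f l) * (y k * y l) =
        algebraMap R S (h1 a i) * algebraMap R S (h1 b j) *
          (algebraMap R S (d (.inr (.inr (a, b, e, f)))) *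
          (((h2.map (algebraMap R S)).mulVec y) e * ((h2.map (algebraMap R S)).mulVec y) f)) := by
      intro a b e f
      rw [mulVec_map, mulVec_map, Finset.sum_mul_sum]
      simp only [Finset.mul_sum]
      refine Finset.sum_congr rfl fun k _ => Finset.sum_congr rfl fun l _ => ?_
      simp only [map_mul]
      ring
    have f2 : ∑ k, ∑ l, algebraMap R S (∑ a, ∑ b, ∑ e, ∑ f,
        d (.inr (.inr (a, b, e, f))) * h1 a i * h1 b j * h2 e k * h2 f l) * (y k * y l) =
        ∑ a, ∑ b, ∑ e, ∑ f, ∑ k, ∑ l, algebraMap R S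
        (d (.inr (.inr (a, b, e, f))) * h1 a i * h1 b j * h2 e k * h2 f l) * (y k * y l) := by
      simp only [map_sum, Finset.sum_mul]
      calc ∑ k, ∑ l, ∑ a, ∑ b, ∑ e, ∑ f, algebraMap R S
            (d (.inr (.inr (a, b, e, f))) * h1 a i * h1 b j * h2 e k * h2 f l) * (y k * y l)
          = ∑ k, ∑ a, ∑ l, ∑ b, ∑ e, ∑ f, algebraMap R S
            (d (.inr (.inr (a, b, e, f))) * h1 a i * h1 b j * h2 e k * h2 f l) * (y k * y l) :=
            Finset.sum_congr rfl fun _ _ => Finset.sum_comm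
        _ = ∑ a, ∑ k, ∑ l, ∑ b, ∑ e, ∑ f, algebraMap R S
            (d (.inr (.inr (a, b, e, f))) * h1 a i * h1 b j * h2 e k * h2 f l) * (y k * y l) :=
            Finset.sum_comm
        _ = ∑ a, ∑ k, ∑ b, ∑ l, ∑ e, ∑ f, algebraMap R S
            (d (.inr (.inr (a, b, e, f))) * h1 a i * h1 b j * h2 e k * h2 f l) * (y k * y l) :=
            Finset.sum_congr rfl fun _ _ => Finset.sum_congr rfl fun _ _ => Finset.sum_comm
        _ = ∑ a, ∑ b, ∑ k, ∑ l, ∑ e, ∑ f, algebraMap R S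
            (d (.inr (.inr (a, b, e, f))) * h1 a i * h1 b j * h2 e k * h2 f l) * (y k * y l) :=
            Finset.sum_congr rfl fun _ _ => Finset.sum_comm
        _ = ∑ a, ∑ b, ∑ k, ∑ e, ∑ l, ∑ f, algebraMap R S
            (d (.inr (.inr (a, b, e, f))) * h1 a i * h1 b j * h2 e k * h2 f l) * (y k * y l) :=
            Finset.sum_congr rfl fun _ _ => Finset.sum_congr rfl fun _ _ =>
              Finset.sum_congr rfl fun _ _ => Finset.sum_comm
        _ = ∑ a, ∑ b, ∑ e, ∑ k, ∑ l, ∑ f, algebraMap R S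
            (d (.inr (.inr (a, b, e, f))) * h1 a i * h1 b j * h2 e k * h2 f l) * (y k * y l) :=
            Finset.sum_congr rfl fun _ _ => Finset.sum_congr rfl fun _ _ => Finset.sum_comm
        _ = ∑ a, ∑ b, ∑ e, ∑ k, ∑ f, ∑ l, algebraMap R S
            (d (.inr (.inr (a, b, e, f))) * h1 a i * h1 b j * h2 e k * h2 f l) * (y k * y l) :=
            Finset.sum_congr rfl fun _ _ => Finset.sum_congr rfl fun _ _ =>
              Finset.sum_congr rfl fun _ _ => Finset.sum_congr rfl fun _ _ => Finset.sum_comm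
        _ = _ := Finset.sum_congr rfl fun _ _ => Finset.sum_congr rfl fun _ _ =>
              Finset.sum_congr rfl fun _ _ => Finset.sum_comm
    rw [f2]
    simp only [f1, Matrix.mul_apply, Matrix.transpose_apply, Matrix.map_apply, Matrix.of_apply,
      ten, Finset.sum_mul, Finset.mul_sum]
    rw [Finset.sum_comm]
    refine Finset.sum_congr rfl fun b _ => Finset.sum_congr rfl fun a _ =>
      Finset.sum_congr rfl fun e _ => Finset.sum_congr rfl fun f _ => ?_
    ring
  rw [ten, ← e1, ← e1, ← e2, ← Finset.sum_add_distrib, ← Finset.sum_add_distrib]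
  refine Finset.sum_congr rfl fun k _ => ?_
  rw [← Finset.sum_add_distrib, ← Finset.sum_add_distrib]
  refine Finset.sum_congr rfl fun l _ => ?_
  rw [← add_mul, ← add_mul, ← map_add, ← map_add]
  rfl

theorem pL_act (d : Ix → R) (h1 h2 : Matrix (Fin 4) (Fin 4) R) (τ : Matrix (Fin 2) (Fin 2) R)
    (A B : Matrix (Fin 4) (Fin 4) R) : pL (act d h1 h2 τ A B) =
      fun i j => ∑ a, ∑ b, (τ 0 0 * pL d a b + τ 0 1 * pL' d a b) * h1 a i * h2 b j := rfl

theorem pL'_act (d : Ix → R) (h1 h2 : Matrix (Fin 4) (Fin 4) R) (τ : Matrix (Fin 2) (Fin 2) R)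
    (A B : Matrix (Fin 4) (Fin 4) R) : pL' (act d h1 h2 τ A B) =
      fun i j => ∑ a, ∑ b, (τ 1 0 * pL d a b + τ 1 1 * pL' d a b) * h1 a i * h2 b j := rfl

theorem quad_act (d : Ix → R) (h1 h2 : Matrix (Fin 4) (Fin 4) R) (τ : Matrix (Fin 2) (Fin 2) R)
    (A B : Matrix (Fin 4) (Fin 4) R) (y : Fin 4 → S) :
    (quad (pQ (act d h1 h2 τ A B))).map (aeval y : _ →ₐ[R] S) =
      (h1.map (algebraMap R S))ᵀ *
        (quad (pQ d)).map (aeval ((h2.map (algebraMap R S)).mulVec y) : _ →ₐ[R] S) *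
        h1.map (algebraMap R S) +
      Matrix.vecMulVec ((2 : S) • (A.map (algebraMap R S)).mulVec y)
        ((fun a => aeval ((h2.map (algebraMap R S)).mulVec y) (lin (pL d) a)) ᵥ*
          h1.map (algebraMap R S)) +
      Matrix.vecMulVec ((fun a => aeval ((h2.map (algebraMap R S)).mulVec y) (lin (pL d) a)) ᵥ*
          h1.map (algebraMap R S)) ((2 : S) • (A.map (algebraMap R S)).mulVec y) +
      Matrix.vecMulVec ((2 : S) • (B.map (algebraMap R S)).mulVec y)
        ((fun a => aeval ((h2.map (algebraMap R S)).mulVec y) (lin (pL' d) a)) ᵥ*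
          h1.map (algebraMap R S)) +
      Matrix.vecMulVec ((fun a => aeval ((h2.map (algebraMap R S)).mulVec y) (lin (pL' d) a)) ᵥ*
          h1.map (algebraMap R S)) ((2 : S) • (B.map (algebraMap R S)).mulVec y) := by
  have e1 : (quad (pQ d)).map (aeval ((h2.map (algebraMap R S)).mulVec y) : _ →ₐ[R] S) =
      (2 : S) • (Matrix.of (ten d ((h2.map (algebraMap R S)).mulVec y)) +
        (Matrix.of (ten d ((h2.map (algebraMap R S)).mulVec y)))ᵀ) := by
    ext i j
    rw [Matrix.map_apply, quad_ten]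
    simp
  have e2 : ∀ (H T : Matrix (Fin 4) (Fin 4) S) (i j : Fin 4),
      (Hᵀ * Tᵀ * H) i j = (Hᵀ * T * H) j i := by
    intro H T i j
    have : (Hᵀ * Tᵀ * H) = (Hᵀ * T * H)ᵀ := by
      simp [Matrix.transpose_mul, Matrix.mul_assoc]
    rw [this, Matrix.transpose_apply]
  ext i j
  rw [Matrix.map_apply, quad_ten, ten_act, ten_act, e1]
  simp only [Matrix.mul_smul, Matrix.smul_mul, Matrix.mul_add, Matrix.add_mul, Matrix.add_apply,
    Matrix.smul_apply, Matrix.vecMulVec_apply, Pi.smul_apply, smul_eq_mul, e2]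
  ring

/-- CY-8a. Change of coordinates of points. -/
theorem onX_act (d : Ix → R) (h1 h2 : Matrix (Fin 4) (Fin 4) R) (τ : Matrix (Fin 2) (Fin 2) R)
    (A B : Matrix (Fin 4) (Fin 4) R) (hτ : IsUnit τ.det) (x y : Fin 4 → S) :
    OnX (act d h1 h2 τ A B) x y ↔
      OnX d ((h1.map (algebraMap R S)).mulVec x) ((h2.map (algebraMap R S)).mulVec y) := by
  set H := h1.map (algebraMap R S) with hH
  set K := h2.map (algebraMap R S) with hK
  set a : Fin 4 → S := fun a => aeval (K.mulVec y) (lin (pL d) a) with ha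
  set b : Fin 4 → S := fun a => aeval (K.mulVec y) (lin (pL' d) a) with hb
  have hdot : ∀ v : Fin 4 → S, ∑ i, (v ᵥ* H) i * x i = ∑ i, v i * (H.mulVec x) i := by
    intro v
    exact (Matrix.dotProduct_mulVec v H x).symm
  have hL : OnL (pL (act d h1 h2 τ A B)) x y ↔
      algebraMap R S (τ 0 0) * ∑ i, a i * (H.mulVec x) i +
        algebraMap R S (τ 0 1) * ∑ i, b i * (H.mulVec x) i = 0 := by
    rw [onL_iff, pL_act]
    have := lin_act2 (pL d) (pL' d) h1 h2 (τ 0 0) (τ 0 1) y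
    have e : ∀ i, aeval y (lin (fun i j => ∑ a, ∑ b, (τ 0 0 * pL d a b + τ 0 1 * pL' d a b) *
        h1 a i * h2 b j) i) * x i = algebraMap R S (τ 0 0) * ((a ᵥ* H) i * x i) +
          algebraMap R S (τ 0 1) * ((b ᵥ* H) i * x i) := by
      intro i
      rw [congrFun this i]
      simp only [Pi.add_apply, Pi.smul_apply, smul_eq_mul]
      ring
    rw [Finset.sum_congr rfl fun i _ => e i, Finset.sum_add_distrib, ← Finset.mul_sum,
      ← Finset.mul_sum, hdot, hdot]
  have hL' : OnL (pL' (act d h1 h2 τ A B)) x y ↔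
      algebraMap R S (τ 1 0) * ∑ i, a i * (H.mulVec x) i +
        algebraMap R S (τ 1 1) * ∑ i, b i * (H.mulVec x) i = 0 := by
    rw [onL_iff, pL'_act]
    have := lin_act2 (pL d) (pL' d) h1 h2 (τ 1 0) (τ 1 1) y
    have e : ∀ i, aeval y (lin (fun i j => ∑ a, ∑ b, (τ 1 0 * pL d a b + τ 1 1 * pL' d a b) *
        h1 a i * h2 b j) i) * x i = algebraMap R S (τ 1 0) * ((a ᵥ* H) i * x i) +
          algebraMap R S (τ 1 1) * ((b ᵥ* H) i * x i) := by
      intro i
      rw [congrFun this i]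
      simp only [Pi.add_apply, Pi.smul_apply, smul_eq_mul]
      ring
    rw [Finset.sum_congr rfl fun i _ => e i, Finset.sum_add_distrib, ← Finset.mul_sum,
      ← Finset.mul_sum, hdot, hdot]
  have hd1 : OnL (pL d) (H.mulVec x) (K.mulVec y) ↔ ∑ i, a i * (H.mulVec x) i = 0 := onL_iff _ _ _
  have hd2 : OnL (pL' d) (H.mulVec x) (K.mulVec y) ↔ ∑ i, b i * (H.mulVec x) i = 0 :=
    onL_iff _ _ _
  have hbil : ∀ (M : Matrix (Fin 4) (Fin 4) S) (u v : Fin 4 → S), bil M u v = u ⬝ᵥ M *ᵥ v := by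
    intro M u v
    simp only [bil, Matrix.mulVec, dotProduct, Finset.mul_sum]
    refine Finset.sum_congr rfl fun i _ => Finset.sum_congr rfl fun j _ => ?_
    ring
  have hQ : OnQ (pQ (act d h1 h2 τ A B)) x y ↔
      bil ((quad (pQ d)).map (aeval (K.mulVec y) : _ →ₐ[R] S)) (H.mulVec x) (H.mulVec x) +
      2 * (((2 : S) • (A.map (algebraMap R S)).mulVec y) ⬝ᵥ x) * (∑ i, a i * (H.mulVec x) i) +
      2 * (((2 : S) • (B.map (algebraMap R S)).mulVec y) ⬝ᵥ x) * (∑ i, b i * (H.mulVec x) i) =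
        0 := by
    rw [onQ_iff, quad_act, hbil, hbil]
    have e1 : ∀ u v : Fin 4 → S, x ⬝ᵥ Matrix.vecMulVec u v *ᵥ x = (u ⬝ᵥ x) * (v ⬝ᵥ x) := by
      intro u v
      rw [Matrix.vecMulVec_mulVec, dotProduct_smul, MulOpposite.smul_eq_mul_unop,
        MulOpposite.unop_op, dotProduct_comm x u]
    have e2 : x ⬝ᵥ (Hᵀ * (quad (pQ d)).map (aeval (K.mulVec y) : _ →ₐ[R] S) * H) *ᵥ x =
        (H.mulVec x) ⬝ᵥ ((quad (pQ d)).map (aeval (K.mulVec y) : _ →ₐ[R] S)) *ᵥ (H.mulVec x) := by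
      rw [← Matrix.mulVec_mulVec, ← Matrix.mulVec_mulVec, Matrix.dotProduct_mulVec,
        Matrix.vecMul_transpose]
    have e3 : (a ᵥ* H) ⬝ᵥ x = ∑ i, a i * (H.mulVec x) i := hdot a
    have e4 : (b ᵥ* H) ⬝ᵥ x = ∑ i, b i * (H.mulVec x) i := hdot b
    simp only [Matrix.add_mulVec, dotProduct_add, e1]
    rw [e2, e3, e4]
    constructor
    · intro h
      linear_combination h
    · intro h
      linear_combination h
  have hdq : OnQ (pQ d) (H.mulVec x) (K.mulVec y) ↔
      bil ((quad (pQ d)).map (aeval (K.mulVec y) : _ →ₐ[R] S)) (H.mulVec x) (H.mulVec x) = 0 :=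
    onQ_iff _ _ _
  unfold OnX
  rw [hL, hL', hQ, hd1, hd2, hdq]
  have hδ : IsUnit (algebraMap R S (τ 0 0) * algebraMap R S (τ 1 1) -
      algebraMap R S (τ 0 1) * algebraMap R S (τ 1 0)) := by
    have := hτ.map (algebraMap R S)
    rwa [Matrix.det_fin_two, map_sub, map_mul, map_mul] at this
  constructor
  · rintro ⟨g1, g2, g3⟩
    have p1 : ∑ i, a i * (H.mulVec x) i = 0 := by
      refine (hδ.mul_right_eq_zero).1 ?_
      linear_combination algebraMap R S (τ 1 1) * g1 - algebraMap R S (τ 0 1) * g2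
    have p2 : ∑ i, b i * (H.mulVec x) i = 0 := by
      refine (hδ.mul_right_eq_zero).1 ?_
      linear_combination algebraMap R S (τ 0 0) * g2 - algebraMap R S (τ 1 0) * g1
    refine ⟨p1, p2, ?_⟩
    rw [p1, p2, mul_zero, mul_zero, add_zero, add_zero] at g3
    exact g3
  · rintro ⟨p1, p2, p3⟩
    rw [p1, p2, p3]
    simp

/-- CY-8b. Change of coordinates of the forms over `y`. -/
theorem cG_act (d : Ix → R) (h1 h2 : Matrix (Fin 4) (Fin 4) R) (τ : Matrix (Fin 2) (Fin 2) R)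
    (A B : Matrix (Fin 4) (Fin 4) R) (y : Fin 4 → S) :
    h1.map (algebraMap R S) *
        (Matrix.of fun i j => aeval y (cG (act d h1 h2 τ A B) i j)) *
        (h1.map (algebraMap R S)).transpose =
      algebraMap R S (h1.det ^ 2 * τ.det ^ 2) •
        Matrix.of fun i j => aeval ((h2.map (algebraMap R S)).mulVec y) (cG d i j) := by
  have e1 : ∀ (c : Ix → R) (y : Fin 4 → S), (Matrix.of fun i j => aeval y (cG c i j)) =
      gram ((quad (pQ c)).map (aeval y : _ →ₐ[R] S))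
        (N4 (fun i => aeval y (lin (pL c) i)) (fun i => aeval y (lin (pL' c) i))) := by
    intro c y
    ext i j
    rw [Matrix.of_apply, cG, aeval_chow4]
  rw [e1, e1, pL_act, pL'_act, lin_act2, lin_act2,
    conj_gram _ _ _ _ _ _ _ _ _ _ _ (quad_act d h1 h2 τ A B y)]
  congr 1
  rw [map_mul, map_pow, map_pow, ← RingHom.mapMatrix_apply, ← RingHom.map_det, Matrix.det_fin_two,
    map_sub, map_mul, map_mul]

theorem act_sw (d : Ix → R) (h1 h2 : Matrix (Fin 4) (Fin 4) R) (τ : Matrix (Fin 2) (Fin 2) R)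
    (A B : Matrix (Fin 4) (Fin 4) R) :
    (fun e => act d h1 h2 τ A B (swI e)) = act (fun e => d (swI e)) h2 h1 τ Aᵀ Bᵀ := by
  funext e
  rcases e with ⟨i, j⟩ | ⟨i, j⟩ | ⟨i, j, k, l⟩
  · change ∑ a, ∑ b, (τ 0 0 * pL d a b + τ 0 1 * pL' d a b) * h1 a j * h2 b i =
      ∑ a, ∑ b, (τ 0 0 * pL d b a + τ 0 1 * pL' d b a) * h2 a i * h1 b j
    rw [Finset.sum_comm]
    exact Finset.sum_congr rfl fun a _ => Finset.sum_congr rfl fun b _ => by ring
  · change ∑ a, ∑ b, (τ 1 0 * pL d a b + τ 1 1 * pL' d a b) * h1 a j * h2 b i =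
      ∑ a, ∑ b, (τ 1 0 * pL d b a + τ 1 1 * pL' d b a) * h2 a i * h1 b j
    rw [Finset.sum_comm]
    exact Finset.sum_congr rfl fun a _ => Finset.sum_congr rfl fun b _ => by ring
  · have e1 : ∀ L : Matrix (Fin 4) (Fin 4) R, ∑ a, ∑ b, L a b * h1 a l * h2 b j =
        ∑ a, ∑ b, L b a * h2 a j * h1 b l := by
      intro L
      rw [Finset.sum_comm]
      exact Finset.sum_congr rfl fun a _ => Finset.sum_congr rfl fun b _ => by ring
    have e2 : ∑ a, ∑ b, ∑ e, ∑ f, d (.inr (.inr (a, b, e, f))) * h1 a k * h1 b l * h2 e i *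
        h2 f j = ∑ a, ∑ b, ∑ e, ∑ f, d (.inr (.inr (e, f, a, b))) * h2 a i * h2 b j * h1 e k *
        h1 f l := by
      calc ∑ a, ∑ b, ∑ e, ∑ f, d (.inr (.inr (a, b, e, f))) * h1 a k * h1 b l * h2 e i * h2 f j
          = ∑ a, ∑ e, ∑ b, ∑ f, d (.inr (.inr (a, b, e, f))) * h1 a k * h1 b l * h2 e i *
            h2 f j := Finset.sum_congr rfl fun _ _ => Finset.sum_comm
        _ = ∑ e, ∑ a, ∑ b, ∑ f, d (.inr (.inr (a, b, e, f))) * h1 a k * h1 b l * h2 e i *
            h2 f j := Finset.sum_comm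
        _ = ∑ e, ∑ a, ∑ f, ∑ b, d (.inr (.inr (a, b, e, f))) * h1 a k * h1 b l * h2 e i *
            h2 f j := Finset.sum_congr rfl fun _ _ => Finset.sum_congr rfl fun _ _ =>
              Finset.sum_comm
        _ = ∑ e, ∑ f, ∑ a, ∑ b, d (.inr (.inr (a, b, e, f))) * h1 a k * h1 b l * h2 e i *
            h2 f j := Finset.sum_congr rfl fun _ _ => Finset.sum_comm
        _ = _ := Finset.sum_congr rfl fun a _ => Finset.sum_congr rfl fun b _ =>
            Finset.sum_congr rfl fun e _ => Finset.sum_congr rfl fun f _ => by ring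
    change (∑ a, ∑ b, ∑ e, ∑ f, d (.inr (.inr (a, b, e, f))) * h1 a k * h1 b l * h2 e i *
        h2 f j) + A k i * (∑ a, ∑ b, pL d a b * h1 a l * h2 b j) +
        B k i * (∑ a, ∑ b, pL' d a b * h1 a l * h2 b j) =
      (∑ a, ∑ b, ∑ e, ∑ f, d (.inr (.inr (e, f, a, b))) * h2 a i * h2 b j * h1 e k *
        h1 f l) + A k i * (∑ a, ∑ b, pL d b a * h2 a j * h1 b l) +
        B k i * (∑ a, ∑ b, pL' d b a * h2 a j * h1 b l)
    rw [e2, e1, e1]

/-- CY-8c. Change of coordinates of the forms over `x`. -/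
theorem cH_act (d : Ix → R) (h1 h2 : Matrix (Fin 4) (Fin 4) R) (τ : Matrix (Fin 2) (Fin 2) R)
    (A B : Matrix (Fin 4) (Fin 4) R) (x : Fin 4 → S) :
    h2.map (algebraMap R S) *
        (Matrix.of fun i j => aeval x (cH (act d h1 h2 τ A B) i j)) *
        (h2.map (algebraMap R S)).transpose =
      algebraMap R S (h2.det ^ 2 * τ.det ^ 2) •
        Matrix.of fun i j => aeval ((h1.map (algebraMap R S)).mulVec x) (cH d i j) := by
  simp only [cH_eq_cG, act_sw]
  exact cG_act (fun e => d (swI e)) h2 h1 τ Aᵀ Bᵀ x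

end change

end Pool.Agent.Helper28.CY
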